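import Mathlib
import Pool.Agent.H107Z.PC5

/-! Every abelian group with a pseudocompact group topology has a group topology with all of the
properties (i)-(iv). -/

set_option autoImplicit false

namespace Pool.Agent.Results.MP_f23337_gt.AllFour

open Filter Topology

universe u

/-- every continuous real function is bounded -/
def Pseudocompact (X : Type u) [TopologicalSpace X] : Prop :=
  ∀ f : X → ℝ, Continuous f → ∃ M : ℝ, ∀ x, |f x| ≤ M

/-- a free (non-principal) ultrafilter on the natural numbers -/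
def Free (p : Ultrafilter ℕ) : Prop := ∀ n : ℕ, p ≠ pure n

/-- `y` is a `p`-limit of the sequence `x` -/
def IsPLimit {X : Type u} [TopologicalSpace X] (p : Ultrafilter ℕ) (x : ℕ → X) (y : X) : Prop :=
  ∀ V ∈ 𝓝 y, {n | x n ∈ V} ∈ p

/-- property (i) -/
def SelectivelyPseudocompact (X : Type u) [TopologicalSpace X] : Prop :=
  ∀ U : ℕ → Set X, (∀ n, IsOpen (U n)) → (∀ n, (U n).Nonempty) →
    ∃ x : ℕ → X, (∀ n, x n ∈ U n) ∧ ∃ p : Ultrafilter ℕ, Free p ∧ ∃ y, IsPLimit p x y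

/-- strongly `p`-pseudocompact -/
def StronglyPseudocompactAt (p : Ultrafilter ℕ) (X : Type u) [TopologicalSpace X] : Prop :=
  ∀ U : ℕ → Set X, (∀ n, IsOpen (U n)) → (∀ n, (U n).Nonempty) →
    ∃ x : ℕ → X, (∀ n, x n ∈ U n) ∧ ∃ y, IsPLimit p x y

/-- property (iv) -/
def StronglyBounded (X : Type u) [TopologicalSpace X] : Prop :=
  ∀ U : ℕ → Set X, (∀ n, IsOpen (U n)) → (∀ n, (U n).Nonempty) →
    ∃ x : ℕ → X, (∀ n, x n ∈ U n) ∧ ∀ p : Ultrafilter ℕ, Free p → ∃ y, IsPLimit p x y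

theorem free_hyper : Free (hyperfilter ℕ) := by
  intro n h
  have h1 : ({n} : Set ℕ) ∈ hyperfilter ℕ := by rw [h]; simp
  exact (Set.finite_singleton n).notMem_hyperfilter h1

theorem result (G : Type u) [AddCommGroup G] (τ : TopologicalSpace G)
    (hgrp : @IsTopologicalAddGroup G τ _) (hT2 : @T2Space G τ) (hpc : @Pseudocompact G τ) :
    ∃ σ : TopologicalSpace G, @IsTopologicalAddGroup G σ _ ∧ @T2Space G σ ∧
      @SelectivelyPseudocompact G σ ∧
      (∃ p : Ultrafilter ℕ, Free p ∧ @StronglyPseudocompactAt p G σ) ∧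
      (∀ p : Ultrafilter ℕ, Free p → @StronglyPseudocompactAt p G σ) ∧
      @StronglyBounded G σ := by
  obtain ⟨σ, h1, h2, h3⟩ := @H107Z.PC.good_of_pc G _ τ hgrp hT2 hpc
  have h4 : @StronglyBounded G σ := by
    intro U hU hne
    obtain ⟨K, hK, hKU⟩ := h3 U hU hne
    choose x hx using hKU
    refine ⟨x, fun n => (hx n).2, fun p _ => ?_⟩
    obtain ⟨y, -, hy⟩ := hK.ultrafilter_le_nhds (p.map x) (by
      rw [Ultrafilter.coe_map, le_principal_iff, mem_map]
      exact Filter.univ_mem' fun n => (hx n).1)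
    exact ⟨y, fun V hV => hy hV⟩
  have h5 : ∀ p : Ultrafilter ℕ, Free p → @StronglyPseudocompactAt p G σ := by
    intro p hp U hU hne
    obtain ⟨x, hx, h⟩ := h4 U hU hne
    exact ⟨x, hx, h p hp⟩
  refine ⟨σ, h1, h2, ?_, ⟨_, free_hyper, h5 _ free_hyper⟩, h5, h4⟩
  intro U hU hne
  obtain ⟨x, hx, h⟩ := h4 U hU hne
  exact ⟨x, hx, _, free_hyper, h _ free_hyper⟩

end Pool.Agent.Results.MP_f23337_gt.AllFour
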